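import Mathlib

/-!
# A point which avoids measures but does not avoid ccc subspaces

There are a compact Hausdorff space `X` and a point `x` of `X` which is not in the support of any
Radon probability measure vanishing at `x`, and which nevertheless is in the closure of a ccc
subspace `Y ⊆ X` with `x ∉ Y`. No additional set-theoretic assumption is used.

Construction. Let `R = ℕ → ℕ`. A point of `Y` of level `n` is a finite set `S ⊆ R` such that for all
`p ≥ n` at most `p` of the numbers `j < (p + 1)²` are values `s p` with `s ∈ S` (a space in the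
style of Gaifman: ccc, in fact `σ`-linked, and every measure vanishes on one of the sets
`{S : s ∈ S}`; all sets with at most `n` elements are points of level `n`). For each sequence
`T n` of finite subsets of `R` with `|T n| / n → 0` let `T` also denote the set of all points `S` of
`Y` with `T n ⊆ S`, `n` being the level of `S`. `X` is the compactification of `Y` in which the
levels and the sets `T` have clopen closures, and `x` is the common point of the closures of the
sets `T` outside of all levels. Any countably many of the sets `T` contain a further one up to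
finitely many levels; hence `x` is a P-point of the complement of the levels.
-/

set_option autoImplicit false

namespace Pool.Agent.Results.MP_843a88_gt.CccNotAvoided

open Set MeasureTheory Filter

/-- A measure on the space `X` in the sense of the problem: a `σ`-additive Borel probability
measure which is Radon, that is, inner regular with respect to compact sets and outer regular with
respect to open sets on all Borel sets. -/
def IsRadonProb {X : Type} [TopologicalSpace X] (μ : @Measure X (borel X)) : Prop :=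
  μ univ = 1 ∧ ∀ B : Set X, @MeasurableSet X (borel X) B →
    (μ B = ⨆ (K : Set X) (_ : IsCompact K ∧ K ⊆ B), μ K) ∧
    (μ B = ⨅ (U : Set X) (_ : IsOpen U ∧ B ⊆ U), μ U)

/-- The support of `μ`: the intersection of all closed sets of measure `1`. -/
def supp {X : Type} [TopologicalSpace X] (μ : @Measure X (borel X)) : Set X :=
  ⋂₀ {C : Set X | IsClosed C ∧ μ C = 1}

/-- `x` avoids measures: `x` is not in the support of any measure `μ` with `μ {x} = 0`. -/
def AvoidsMeasures {X : Type} [TopologicalSpace X] (x : X) : Prop :=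
  ∀ μ : @Measure X (borel X), IsRadonProb μ → μ {x} = 0 → x ∉ supp μ

/-- A space is ccc if every family of pairwise disjoint nonempty open sets is countable. -/
def Ccc (Y : Type) [TopologicalSpace Y] : Prop :=
  ∀ F : Set (Set Y), (∀ U ∈ F, IsOpen U ∧ U.Nonempty) → (∀ U ∈ F, ∀ V ∈ F, U ≠ V → Disjoint U V) →
    F.Countable

/-- `x` avoids ccc spaces: `x` is not in the closure of any ccc subspace `Y` with `x ∉ Y`. -/
def AvoidsCcc {X : Type} [TopologicalSpace X] (x : X) : Prop :=
  ∀ Y : Set X, Ccc Y → x ∉ Y → x ∉ closure Y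

/-! ## The points of level `n` -/

noncomputable local instance decR : DecidableEq (ℕ → ℕ) := Classical.decEq _

/-- the values below `(p + 1)²` at `p` of the members of `S` -/
def hits (S : Finset (ℕ → ℕ)) (p : ℕ) : Finset ℕ :=
  (S.image (fun x => x p)).filter (fun j => j < (p + 1) ^ 2)

def Good (n : ℕ) (S : Finset (ℕ → ℕ)) : Prop := ∀ p, n ≤ p → (hits S p).card ≤ p

lemma card_hits (S : Finset (ℕ → ℕ)) (p : ℕ) : (hits S p).card ≤ S.card :=
  (Finset.card_filter_le _ _).trans Finset.card_image_le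

lemma hits_union (S S' : Finset (ℕ → ℕ)) (p : ℕ) : hits (S ∪ S') p = hits S p ∪ hits S' p := by
  simp [hits, Finset.image_union, Finset.filter_union]

lemma good_of_card {n : ℕ} {S : Finset (ℕ → ℕ)} (h : S.card ≤ n) : Good n S :=
  fun p hp => (card_hits S p).trans (h.trans hp)

/-- sequences of finite sets with `|T n| / n → 0` -/
def Small (T : ℕ → Finset (ℕ → ℕ)) : Prop := ∀ k : ℕ, ∀ᶠ n in atTop, k * (T n).card ≤ n

lemma Small.union {T T' : ℕ → Finset (ℕ → ℕ)} (h : Small T) (h' : Small T') :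
    Small (fun n => T n ∪ T' n) := by
  intro k
  filter_upwards [h (2 * k), h' (2 * k)] with n h1 h2
  have h3 : (T n ∪ T' n).card ≤ (T n).card + (T' n).card := Finset.card_union_le _ _
  calc k * (T n ∪ T' n).card ≤ k * ((T n).card + (T' n).card) := Nat.mul_le_mul_left _ h3
    _ ≤ n := by nlinarith

lemma Small.empty : Small (fun _ => ∅) := by
  intro k
  filter_upwards with n
  simp

lemma Small.biUnion {ι : Type} (I : Finset ι) (T : ι → ℕ → Finset (ℕ → ℕ))
    (h : ∀ i ∈ I, Small (T i)) : Small (fun n => I.biUnion (fun i => T i n)) := by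
  classical
  induction I using Finset.induction_on with
  | empty => simpa using Small.empty
  | insert a s ha ih =>
    simp only [Finset.biUnion_insert]
    exact (h a (Finset.mem_insert_self _ _)).union
      (ih fun i hi => h i (Finset.mem_insert_of_mem hi))

lemma small_diag (T : ℕ → ℕ → Finset (ℕ → ℕ)) (h : ∀ i, Small (T i)) :
    ∃ T' : ℕ → Finset (ℕ → ℕ), Small T' ∧ ∀ k, ∀ᶠ n in atTop, T k n ⊆ T' n := by
  classical
  let C : ℕ → ℕ → Finset (ℕ → ℕ) := fun j n => (Finset.range (j + 1)).biUnion (fun i => T i n)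
  have hC : ∀ j, Small (C j) := fun j => Small.biUnion _ _ (fun i _ => h i)
  let P : ℕ → ℕ → Prop := fun n j => (j + 1) * (C j n).card ≤ n
  let g : ℕ → ℕ := fun n => Nat.findGreatest (P n) n
  have hg : ∀ j, ∀ᶠ n in atTop, j ≤ g n ∧ P n (g n) := by
    intro j
    filter_upwards [hC j (j + 1), eventually_ge_atTop j] with n h1 h2
    exact ⟨Nat.le_findGreatest h2 h1, Nat.findGreatest_spec (P := P n) h2 h1⟩
  refine ⟨fun n => if P n (g n) then C (g n) n else ∅, ?_, ?_⟩
  · intro k
    filter_upwards [hg k] with n hn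
    simp only [if_pos hn.2]
    exact (Nat.mul_le_mul_right _ (by omega)).trans hn.2
  · intro k
    filter_upwards [hg k] with n hn
    simp only [if_pos hn.2]
    exact Finset.subset_biUnion_of_mem (fun i => T i n) (Finset.mem_range.2 (by omega))

/-- the index set -/
abbrev TT : Type := {T : ℕ → Finset (ℕ → ℕ) // Small T}

/-- the sequence with `T n = {x}` and no other elements -/
noncomputable def sing (n : ℕ) (x : ℕ → ℕ) : TT :=
  ⟨fun m => if m = n then {x} else ∅, by
    intro k
    filter_upwards [eventually_ge_atTop k] with m hm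
    split_ifs <;> simp [hm]⟩

/-- the ambient cube -/
abbrev Z : Type := (ℕ → Bool) × (TT → Bool)

open Classical in
/-- the point given by the set `S` of level `n` -/
noncomputable def E (n : ℕ) (S : Finset (ℕ → ℕ)) : Z :=
  (fun m => decide (m = n), fun T => decide (T.1 n ⊆ S))

def rng : Set Z := {z | ∃ n S, Good n S ∧ z = E n S}

def X : Type := ↥(closure rng)

instance : TopologicalSpace X := inferInstanceAs (TopologicalSpace ↥(closure rng))

lemma t2X : T2Space X := inferInstanceAs (T2Space ↥(closure rng))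

lemma compactX : CompactSpace X := isCompact_iff_compactSpace.1 isClosed_closure.isCompact

lemma cont1 (m : ℕ) : Continuous (fun z : Z => z.1 m) := (continuous_apply m).comp continuous_fst
lemma cont2 (T : TT) : Continuous (fun z : Z => z.2 T) := (continuous_apply T).comp continuous_snd

lemma open1 (m : ℕ) (b : Bool) : IsOpen {z : Z | z.1 m = b} :=
  (isOpen_discrete ({b} : Set Bool)).preimage (cont1 m)
lemma open2 (T : TT) (b : Bool) : IsOpen {z : Z | z.2 T = b} :=
  (isOpen_discrete ({b} : Set Bool)).preimage (cont2 T)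

lemma clo (z : X) {O : Set Z} (hO : IsOpen O) (hz : z.1 ∈ O) :
    ∃ n S, Good n S ∧ E n S ∈ O := by
  obtain ⟨y, hy, n, S, hS, rfl⟩ := mem_closure_iff.1 z.2 O hO hz
  exact ⟨n, S, hS, hy⟩

lemma E1 {n m : ℕ} {S : Finset (ℕ → ℕ)} : (E n S).1 m = true ↔ m = n := by simp [E]
lemma E1f {n m : ℕ} {S : Finset (ℕ → ℕ)} : (E n S).1 m = false ↔ m ≠ n := by simp [E]
lemma E2 {n : ℕ} {S : Finset (ℕ → ℕ)} {T : TT} : (E n S).2 T = true ↔ T.1 n ⊆ S := by simp [E]
lemma E2f {n : ℕ} {S : Finset (ℕ → ℕ)} {T : TT} : (E n S).2 T = false ↔ ¬ T.1 n ⊆ S := by simp [E]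

/-- basic neighbourhoods in the cube -/
lemma basic {O : Set Z} (hO : IsOpen O) {z : Z} (hz : z ∈ O) :
    ∃ (M : Finset ℕ) (I : Finset TT), ∀ w : Z, (∀ m ∈ M, w.1 m = z.1 m) →
      (∀ T ∈ I, w.2 T = z.2 T) → w ∈ O := by
  obtain ⟨u, v, hu, hv, h1, h2, huv⟩ := isOpen_prod_iff.1 hO z.1 z.2 hz
  obtain ⟨M, a, ha, ha'⟩ := isOpen_pi_iff.1 hu z.1 h1
  obtain ⟨I, b, hb, hb'⟩ := isOpen_pi_iff.1 hv z.2 h2
  refine ⟨M, I, fun w h3 h4 => huv (Set.mk_mem_prod (ha' ?_) (hb' ?_))⟩
  · intro m hm
    rw [h3 m hm]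
    exact (ha m hm).2
  · intro T hT
    rw [h4 T hT]
    exact (hb T hT).2

/-- the special point -/
def x0 : Z := (fun _ => false, fun _ => true)

lemma x0_mem : x0 ∈ closure rng := by
  rw [mem_closure_iff]
  intro O hO hz
  obtain ⟨M, I, h⟩ := basic hO hz
  have hs := Small.biUnion I (fun T => T.1) (fun T _ => T.2)
  obtain ⟨n, hn1, hn2⟩ := ((hs 1).and (eventually_gt_atTop (M.sup id))).exists
  refine ⟨E n (I.biUnion fun T => T.1 n), h _ ?_ ?_, n, _, good_of_card (by simpa using hn1), rfl⟩
  · intro m hm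
    have : m ≤ M.sup id := Finset.le_sup (f := id) hm
    exact E1f.2 (by omega)
  · intro T hT
    exact E2.2 (Finset.subset_biUnion_of_mem (fun T : TT => T.1 n) hT)

def pt0 : X := ⟨x0, x0_mem⟩

/-! ## The ccc subspace -/

def YY : Set X := {z | z.1 ∈ rng}

noncomputable def pt (n : ℕ) (S : Finset (ℕ → ℕ)) (h : Good n S) : YY :=
  ⟨⟨E n S, subset_closure ⟨n, S, h, rfl⟩⟩, n, S, h, rfl⟩

lemma cyl (U : Set YY) (hU : IsOpen U) (hne : U.Nonempty) :
    ∃ (n : ℕ) (F G : Finset (ℕ → ℕ)), Good n F ∧ Disjoint F G ∧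
      ∀ S (h : Good n S), F ⊆ S → Disjoint S G → pt n S h ∈ U := by
  classical
  obtain ⟨V, hV, rfl⟩ := isOpen_induced_iff.1 hU
  obtain ⟨O, hO, rfl⟩ := isOpen_induced_iff.1 hV
  obtain ⟨⟨⟨z, hz⟩, n, F, hF, hzF⟩, hy⟩ := hne
  obtain ⟨M, I, h⟩ := basic hO hy
  simp only at hzF
  subst hzF
  refine ⟨n, F, I.biUnion (fun T => T.1 n \ F), hF, ?_, ?_⟩
  · rw [Finset.disjoint_left]
    intro a ha hb
    obtain ⟨T, _, h2⟩ := Finset.mem_biUnion.1 hb
    exact (Finset.mem_sdiff.1 h2).2 ha
  · intro S hS hFS hdis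
    refine h (E n S) (fun m _ => rfl) ?_
    intro T hT
    show (E n S).2 T = (E n F).2 T
    by_cases h1 : T.1 n ⊆ F
    · rw [E2.2 h1, E2.2 (h1.trans hFS)]
    · rw [E2f.2 h1, E2f]
      intro h2
      obtain ⟨a, ha, ha'⟩ := Finset.not_subset.1 h1
      exact Finset.disjoint_left.1 hdis (h2 ha)
        (Finset.mem_biUnion.2 ⟨T, hT, Finset.mem_sdiff.2 ⟨ha, ha'⟩⟩)

/-- the first `N` values -/
def res (N : ℕ) (x : ℕ → ℕ) : List ℕ := (List.range N).map x

lemma res_ne {x y : ℕ → ℕ} {i N : ℕ} (h : x i ≠ y i) (hi : i < N) : res N x ≠ res N y := by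
  intro he
  exact h (List.map_inj_left.1 he i (List.mem_range.2 hi))

lemma exists_res (F G : Finset (ℕ → ℕ)) (h : Disjoint F G) :
    ∃ N, ∀ x ∈ F, ∀ y ∈ G, res N x ≠ res N y := by
  classical
  have h1 : ∀ p ∈ F ×ˢ G, ∃ i, p.1 i ≠ p.2 i := by
    intro p hp
    obtain ⟨hx, hy⟩ := Finset.mem_product.1 hp
    exact Function.ne_iff.1 fun e => Finset.disjoint_left.1 h hx (e ▸ hy)
  choose! i hi using h1
  refine ⟨(F ×ˢ G).sup i + 1, fun x hx y hy => ?_⟩
  have hp : (x, y) ∈ F ×ˢ G := Finset.mem_product.2 ⟨hx, hy⟩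
  exact res_ne (hi _ hp) (Nat.lt_succ_of_le (Finset.le_sup (f := i) hp))

lemma ccc_YY : Ccc YY := by
  classical
  intro 𝒰 h1 h2
  have h3 : ∀ U : 𝒰, ∃ (n : ℕ) (F G : Finset (ℕ → ℕ)) (N : ℕ), Good n F ∧
      (∀ x ∈ F, ∀ y ∈ G, res N x ≠ res N y) ∧
      ∀ S (h : Good n S), F ⊆ S → Disjoint S G → pt n S h ∈ U.1 := by
    intro U
    obtain ⟨n, F, G, hF, hd, h⟩ := cyl U.1 (h1 _ U.2).1 (h1 _ U.2).2
    obtain ⟨N, hN⟩ := exists_res F G hd
    exact ⟨n, F, G, N, hF, hN, h⟩
  choose n F G N hF hN h using h3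
  let code : 𝒰 → ℕ × ℕ × List (Finset ℕ) × ℕ × Finset (List ℕ) := fun U =>
    (n U, (F U).card, (List.range (2 * (F U).card)).map (hits (F U)), N U, (F U).image (res (N U)))
  have hinj : Function.Injective code := by
    intro U V he
    have e1 : n U = n V := congrArg (fun c => c.1) he
    have e2 : (F U).card = (F V).card := congrArg (fun c => c.2.1) he
    have e3 : (List.range (2 * (F U).card)).map (hits (F U)) =
      (List.range (2 * (F V).card)).map (hits (F V)) := congrArg (fun c => c.2.2.1) he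
    have e4 : N U = N V := congrArg (fun c => c.2.2.2.1) he
    have e5 : (F U).image (res (N U)) = (F V).image (res (N V)) :=
      congrArg (fun c => c.2.2.2.2) he
    rw [← e2] at e3
    rw [← e4] at e5
    have g1 : Good (n U) (F U ∪ F V) := by
      intro p hp
      by_cases h4 : p < 2 * (F U).card
      · rw [hits_union, ← List.map_inj_left.1 e3 p (List.mem_range.2 h4), Finset.union_self]
        exact hF U p hp
      · refine (card_hits _ _).trans ((Finset.card_union_le _ _).trans ?_)
        omega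
    have g2 : Good (n V) (F U ∪ F V) := e1 ▸ g1
    have hd1 : Disjoint (F U ∪ F V) (G U) := by
      rw [Finset.disjoint_left]
      intro a ha hb
      rcases Finset.mem_union.1 ha with h5 | h5
      · exact hN U a h5 a hb rfl
      · have h6 : res (N U) a ∈ (F U).image (res (N U)) := by
          rw [e5]; exact Finset.mem_image_of_mem _ h5
        obtain ⟨c, hc, hc'⟩ := Finset.mem_image.1 h6
        exact hN U c hc a hb hc'
    have hd2 : Disjoint (F U ∪ F V) (G V) := by
      rw [Finset.disjoint_left]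
      intro a ha hb
      rcases Finset.mem_union.1 ha with h5 | h5
      · have h6 : res (N U) a ∈ (F V).image (res (N U)) := by
          rw [← e5]; exact Finset.mem_image_of_mem _ h5
        obtain ⟨c, hc, hc'⟩ := Finset.mem_image.1 h6
        rw [e4] at hc'
        exact hN V c hc a hb hc'
      · exact hN V a h5 a hb rfl
    have m1 := h U _ g1 Finset.subset_union_left hd1
    have m2 := h V _ g2 Finset.subset_union_right hd2
    have e6 : pt (n U) (F U ∪ F V) g1 = pt (n V) (F U ∪ F V) g2 := by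
      apply Subtype.ext
      apply Subtype.ext
      show E (n U) _ = E (n V) _
      rw [e1]
    by_contra hne
    have hne' : U.1 ≠ V.1 := fun e => hne (Subtype.ext e)
    exact Set.disjoint_left.1 (h2 _ U.2 _ V.2 hne') m1 (e6 ▸ m2)
  exact Set.countable_coe_iff.1 hinj.countable

/-! ## Measures -/

/-- on the remainder, the sets are ordered modulo finitely many levels -/
lemma mono (z : X) (hz : ∀ m, z.1.1 m = false) {T T' : TT} (h : ∀ᶠ n in atTop, T'.1 n ⊆ T.1 n)
    (hT : z.1.2 T = true) : z.1.2 T' = true := by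
  by_contra hf
  rw [Bool.not_eq_true] at hf
  obtain ⟨N, hN⟩ := eventually_atTop.1 h
  have hO : IsOpen ((⋂ m ∈ Finset.range N, {w : Z | w.1 m = false}) ∩
      ({w : Z | w.2 T = true} ∩ {w : Z | w.2 T' = false})) :=
    (isOpen_biInter_finset fun m _ => open1 m false).inter ((open2 T _).inter (open2 T' _))
  obtain ⟨n, S, _, h1, h2, h3⟩ := clo z hO ⟨by simpa using fun m _ => hz m, hT, hf⟩
  have hn : N ≤ n := by
    by_contra hlt
    have h4 : (E n S).1 n = false := by
      simp only [Set.mem_iInter] at h1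
      exact h1 n (Finset.mem_range.2 (by omega))
    exact E1f.1 h4 rfl
  exact E2f.1 h3 ((hN n hn).trans (E2.1 h2))

/-- on the level `n` -/
lemma mono_level (z : X) {n : ℕ} (hz : z.1.1 n = true) {T T' : TT} (h : T'.1 n ⊆ T.1 n)
    (hT : z.1.2 T = true) : z.1.2 T' = true := by
  by_contra hf
  rw [Bool.not_eq_true] at hf
  have hO : IsOpen ({w : Z | w.1 n = true} ∩
      ({w : Z | w.2 T = true} ∩ {w : Z | w.2 T' = false})) :=
    (open1 n true).inter ((open2 T _).inter (open2 T' _))
  obtain ⟨m, S, _, h1, h2, h3⟩ := clo z hO ⟨hz, hT, hf⟩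
  have hn : n = m := E1.1 h1
  subst hn
  exact E2f.1 h3 (h.trans (E2.1 h2))

def W (n : ℕ) (x : ℕ → ℕ) : Set X := {z | z.1.1 n = true ∧ z.1.2 (sing n x) = true}

lemma openW (n : ℕ) (x : ℕ → ℕ) : IsOpen (W n x) :=
  ((open1 n true).inter (open2 (sing n x) true)).preimage continuous_subtype_val

/-- a point lies in few of the sets `W n (x j)` -/
lemma card_le (n p : ℕ) (hp : n ≤ p) (x : ℕ → ℕ → ℕ) (hx : ∀ j, x j p = j) (z : X)
    (J : Finset ℕ) (hJ : ∀ j ∈ J, j < (p + 1) ^ 2 ∧ z ∈ W n (x j)) : J.card ≤ p := by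
  classical
  by_cases h0 : J = ∅
  · simp [h0]
  obtain ⟨j0, hj0⟩ := Finset.nonempty_iff_ne_empty.2 h0
  have hO : IsOpen ({w : Z | w.1 n = true} ∩ (⋂ j ∈ J, {w : Z | w.2 (sing n (x j)) = true})) :=
    (open1 n true).inter (isOpen_biInter_finset fun j _ => open2 _ true)
  obtain ⟨m, S, hS, h1, h2⟩ := clo z hO
    ⟨(hJ j0 hj0).2.1, by simpa using fun j hj => (hJ j hj).2.2⟩
  have hn : n = m := E1.1 h1
  subst hn
  refine le_trans (Finset.card_le_card ?_) (hS p hp)
  intro j hj
  have h3 : (E n S).2 (sing n (x j)) = true := by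
    simp only [Set.mem_iInter] at h2
    exact h2 j hj
  have h4 : (sing n (x j)).1 n ⊆ S := E2.1 h3
  have h5 : x j ∈ S := h4 (by simp [sing])
  exact Finset.mem_filter.2 ⟨Finset.mem_image.2 ⟨x j, h5, hx j⟩, (hJ j hj).1⟩

section measure

local instance mX : MeasurableSpace X := borel X

local instance bX : BorelSpace X := ⟨rfl⟩

lemma exists_null (μ : Measure X) (hμ : μ univ = 1) (n : ℕ) : ∃ x, μ (W n x) = 0 := by
  classical
  by_contra hcon
  push Not at hcon
  have h1 : ∀ p, n ≤ p → ∃ j, ∀ x : ℕ → ℕ, x p = j → μ (W n x) ≤ ((p + 1 : ℕ) : ENNReal)⁻¹ := by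
    intro p hp
    by_contra h2
    push Not at h2
    choose x hx hx' using h2
    have h3 : ∑ j ∈ Finset.range ((p + 1) ^ 2), μ (W n (x j)) ≤ p := by
      calc ∑ j ∈ Finset.range ((p + 1) ^ 2), μ (W n (x j))
          = ∑ j ∈ Finset.range ((p + 1) ^ 2), ∫⁻ z, (W n (x j)).indicator 1 z ∂μ := by
            refine Finset.sum_congr rfl fun j _ => ?_
            rw [lintegral_indicator_one (openW n (x j)).measurableSet]
        _ = ∫⁻ z, ∑ j ∈ Finset.range ((p + 1) ^ 2), (W n (x j)).indicator 1 z ∂μ := by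
            rw [lintegral_finsetSum]
            intro j _
            exact measurable_one.indicator (openW n (x j)).measurableSet
        _ ≤ ∫⁻ _, (p : ENNReal) ∂μ := by
            refine lintegral_mono fun z => ?_
            have h4 : ∑ j ∈ Finset.range ((p + 1) ^ 2), (W n (x j)).indicator (1 : X → ENNReal) z =
                (((Finset.range ((p + 1) ^ 2)).filter (fun j => z ∈ W n (x j))).card : ENNReal) := by
              rw [Finset.card_filter, Nat.cast_sum]
              refine Finset.sum_congr rfl fun j _ => ?_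
              by_cases h5 : z ∈ W n (x j) <;> simp [h5]
            rw [h4]
            refine Nat.cast_le.2 (card_le n p hp x hx z _ fun j hj => ?_)
            rw [Finset.mem_filter, Finset.mem_range] at hj
            exact hj
        _ = p := by rw [lintegral_const, hμ, mul_one]
    have h6 : ((p + 1 : ℕ) : ENNReal) ≤ ∑ j ∈ Finset.range ((p + 1) ^ 2), μ (W n (x j)) := by
      calc ((p + 1 : ℕ) : ENNReal)
          = ∑ j ∈ Finset.range ((p + 1) ^ 2), ((p + 1 : ℕ) : ENNReal)⁻¹ := by
            rw [Finset.sum_const, Finset.card_range, nsmul_eq_mul, pow_two, Nat.cast_mul,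
              mul_assoc, ENNReal.mul_inv_cancel, mul_one]
            · exact_mod_cast Nat.succ_ne_zero p
            · exact ENNReal.natCast_ne_top _
        _ ≤ _ := Finset.sum_le_sum fun j _ => (hx' j).le
    have h7 : ((p + 1 : ℕ) : ENNReal) ≤ (p : ENNReal) := h6.trans h3
    have h8 : p + 1 ≤ p := by exact_mod_cast h7
    omega
  choose! j hj using h1
  apply hcon (fun p => j p)
  have h2 : ∀ p, n ≤ p → μ (W n fun p => j p) ≤ ((p + 1 : ℕ) : ENNReal)⁻¹ :=
    fun p hp => hj p hp _ rfl
  by_contra h3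
  obtain ⟨q, hq⟩ := ENNReal.exists_inv_nat_lt h3
  have h4 := h2 (max n q) (le_max_left _ _)
  have h5 : ((max n q + 1 : ℕ) : ENNReal)⁻¹ ≤ ((q : ℕ) : ENNReal)⁻¹ := by
    apply ENNReal.inv_le_inv.2
    exact_mod_cast (by omega : q ≤ max n q + 1)
  exact absurd (h4.trans h5) (not_le.2 hq)

lemma avoid (μ : Measure X) (hμ : μ univ = 1)
    (hout : μ {pt0} = ⨅ (U : Set X) (_ : IsOpen U ∧ {pt0} ⊆ U), μ U)
    (h0 : μ {pt0} = 0) : pt0 ∉ supp μ := by
  classical
  rw [h0] at hout
  -- small neighbourhoods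
  have h1 : ∀ k : ℕ, ∃ I : Finset TT,
      μ {z : X | (∀ m, z.1.1 m = false) ∧ ∀ T ∈ I, z.1.2 T = true} ≤ ((k : ℕ) : ENNReal)⁻¹ := by
    intro k
    by_cases hk : k = 0
    · refine ⟨∅, ?_⟩
      simp [hk]
    have h2 : (⨅ (U : Set X) (_ : IsOpen U ∧ {pt0} ⊆ U), μ U) < ((k : ℕ) : ENNReal)⁻¹ := by
      rw [← hout]
      exact ENNReal.inv_pos.2 (ENNReal.natCast_ne_top _)
    obtain ⟨U, hU⟩ := iInf_lt_iff.1 h2
    obtain ⟨⟨hUo, hUp⟩, hU⟩ := iInf_lt_iff.1 hU
    obtain ⟨O, hO, rfl⟩ := isOpen_induced_iff.1 hUo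
    have hx : x0 ∈ O := hUp rfl
    obtain ⟨M, I, h⟩ := basic hO hx
    refine ⟨I, (measure_mono ?_).trans hU.le⟩
    rintro z ⟨hz1, hz2⟩
    exact h z.1 (fun m _ => hz1 m) hz2
  choose I hI using h1
  obtain ⟨T, hT, hTI⟩ := small_diag (fun k n => (I k).biUnion (fun T => T.1 n))
    (fun k => Small.biUnion _ _ (fun T _ => T.2))
  have h2 : μ {z : X | (∀ m, z.1.1 m = false) ∧ z.1.2 ⟨T, hT⟩ = true} = 0 := by
    by_contra h3
    obtain ⟨q, hq⟩ := ENNReal.exists_inv_nat_lt h3
    refine absurd ((measure_mono ?_).trans (hI q)) (not_le.2 hq)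
    rintro z ⟨hz1, hz2⟩
    refine ⟨hz1, fun T' hT' => mono z hz1 ?_ hz2⟩
    filter_upwards [hTI q] with n hn
    exact (Finset.subset_biUnion_of_mem (fun T : TT => T.1 n) hT').trans hn
  choose x hx using exists_null μ hμ
  have hT1 : Small (fun n => {x n}) := by
    intro k
    filter_upwards [eventually_ge_atTop k] with m hm
    simpa using hm
  have hT2 := hT.union hT1
  let U : Set X := {z | z.1.2 ⟨_, hT2⟩ = true}
  have hUo : IsOpen U := (open2 ⟨_, hT2⟩ true).preimage continuous_subtype_val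
  have hU0 : μ U = 0 := by
    refine measure_mono_null (t := {z : X | (∀ m, z.1.1 m = false) ∧ z.1.2 ⟨T, hT⟩ = true} ∪
      ⋃ n, W n (x n)) ?_ (measure_union_null h2 (measure_iUnion_null hx))
    intro z hz
    by_cases hz1 : ∀ m, z.1.1 m = false
    · refine Or.inl ⟨hz1, mono z hz1 ?_ hz⟩
      filter_upwards with n
      exact Finset.subset_union_left
    · push Not at hz1
      obtain ⟨n, hn⟩ := hz1
      have hn' : z.1.1 n = true := Bool.eq_true_of_not_eq_false hn
      refine Or.inr (Set.mem_iUnion.2 ⟨n, hn', mono_level z hn' ?_ hz⟩)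
      simp [sing]
  intro hmem
  have h5 : μ Uᶜ = 1 := by
    rw [measure_compl hUo.measurableSet (by simp [hU0]), hμ, hU0, tsub_zero]
  have h6 := Set.mem_sInter.1 hmem Uᶜ ⟨hUo.isClosed_compl, h5⟩
  exact h6 rfl

lemma meas0 : MeasurableSet ({pt0} : Set X) := by
  have := t2X
  exact isClosed_singleton.measurableSet

end measure

/-- There are a compact Hausdorff space and a point of it which avoids measures but does not avoid
ccc spaces. -/
theorem result : ∃ (X : Type) (_ : TopologicalSpace X) (_ : CompactSpace X) (_ : T2Space X) (x : X),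
    AvoidsMeasures x ∧ ¬ AvoidsCcc x := by
  refine ⟨X, inferInstance, compactX, t2X, pt0, ?_, ?_⟩
  · intro μ hμ h0
    exact avoid μ hμ.1 (hμ.2 _ meas0).2 h0
  · intro h
    refine h YY ccc_YY ?_ ?_
    · rintro ⟨n, S, _, hS⟩
      have h1 : (E n S).1 n = false := by rw [← hS]; rfl
      exact E1f.1 h1 rfl
    · rw [mem_closure_iff]
      intro O hO hz
      obtain ⟨V, hV, rfl⟩ := isOpen_induced_iff.1 hO
      obtain ⟨y, hy, hy'⟩ := mem_closure_iff.1 x0_mem V hV hz
      exact ⟨⟨y, subset_closure hy'⟩, hy, hy'⟩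

end Pool.Agent.Results.MP_843a88_gt.CccNotAvoided
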